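import Pool.Agent.RSU.Gad
import Pool.Agent.RSU.Ker

/-!
# RTU (helper88): two-sided regular sets are small, MP_b47c0e_co

Leaves `Fin K → Fin n`, `K = r q`; `G` a graph on `Fin n` without homogeneous sets of more than `ω`
elements.  Two different leaves `a, b` with first difference at level `l = lev a b` have density
`γ * (2 (l mod r) + [a_l ~ b_l in G])`: `2 r` different values, spacing `γ > 2 δ`.
-/

set_option autoImplicit false

namespace Pool.Agent.RTU

open Finset Pool.Agent.RSU

variable {K n : ℕ}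

/-- the index of the value between two leaves -/
def col (G : SimpleGraph (Fin n)) [DecidableRel G.Adj] (r : ℕ) (a b : Fin K → Fin n) : ℕ :=
  2 * (lev a b % r) +
    if ∃ h : lev a b < K, G.Adj (a ⟨lev a b, h⟩) (b ⟨lev a b, h⟩) then 1 else 0

/-- the density between two leaves -/
noncomputable def D1 (G : SimpleGraph (Fin n)) [DecidableRel G.Adj] (r : ℕ) (γ : ℝ)
    (a b : Fin K → Fin n) : ℝ := if a = b then 0 else γ * col G r a b

/-- edges between two sets of leaves of weight `μ` -/
noncomputable def E1 (G : SimpleGraph (Fin n)) [DecidableRel G.Adj] (r : ℕ) (γ : ℝ)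
    (μ : (Fin K → Fin n) → ℝ) (X Y : Finset (Fin K → Fin n)) : ℝ :=
  ∑ a ∈ X, ∑ b ∈ Y, μ a * μ b * D1 G r γ a b

/-- `G` has no homogeneous set with more than `ω` elements -/
def Hom (G : SimpleGraph (Fin n)) (ω : ℕ) : Prop := ∀ T : Finset (Fin n),
  ((∀ c ∈ T, ∀ d ∈ T, c ≠ d → G.Adj c d) ∨ (∀ c ∈ T, ∀ d ∈ T, c ≠ d → ¬ G.Adj c d)) →
    T.card ≤ ω

end Pool.Agent.RTU
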