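import Pool.Agent.RTU.Main

/-!
# RTU, the choice of the parameters `η`, `s` and the number of vertices

`V = (Fin (r q) → Fin n) × (Fin (2 s) → ZMod p)`, `s` large.
-/

set_option autoImplicit false

namespace Pool.Agent.RTU

open Finset

theorem fin_bound {n p g r q ω : ℕ} [Fact p.Prime] {G : SimpleGraph (Fin n)}
    [DecidableRel G.Adj] {α δ β : ℝ} (hr : 1 ≤ r) (hn : 2 ≤ n) (hω : 2 ≤ ω)
    (hG : Hom G ω) (hα : 0 < α) (hg : g * (2 * r - 1) ≤ p)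
    (hgδ : 2 * δ < (g : ℝ) / p) (hc : 4 * n * α * (ω : ℝ) ^ q ≤ 1)
    (hβ : 0 < β) (hβ2 : 2 * (ω : ℝ) ^ q < β * (n : ℝ) ^ (r * q)) (N : ℕ) :
    ∃ (V : Type) (_ : Fintype V) (_ : DecidableEq V) (H : SimpleGraph V)
      (_ : DecidableRel H.Adj), N ≤ Fintype.card V ∧
      ∀ U : Finset V, U.Nonempty →
        (∀ A, A ⊆ U → ∀ B, B ⊆ U → α * U.card ≤ A.card → α * U.card ≤ B.card →
          |(H.edgeDensity A B : ℝ) - (H.edgeDensity U U : ℝ)| ≤ δ) →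
        (U.card : ℝ) < β * (Fintype.card V : ℝ) := by
  have hpp : p.Prime := Fact.out
  have hp1 : (1 : ℝ) < p := by exact_mod_cast hpp.one_lt
  have hp0 : (0 : ℝ) < p := by linarith
  have hn0 : 0 < n := by omega
  have hn0' : (0 : ℝ) < n := by exact_mod_cast hn0
  obtain ⟨η, hη⟩ : ∃ η : ℝ, η = ((g : ℝ) / p - 2 * δ) / 8 := ⟨_, rfl⟩
  have hη0 : 0 < η := by rw [hη]; linarith
  have hη1 : 2 * (δ + 2 * η) < (g : ℝ) / p := by rw [hη]; linarith
  obtain ⟨s, hs⟩ := pow_unbounded_of_one_lt (p / (η * (α * β) ^ 2) + N) hp1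
  have hs1 : p / (η * (α * β) ^ 2) ≤ (p : ℝ) ^ s := by
    have : (0 : ℝ) ≤ N := by positivity
    linarith
  have hs2 : (N : ℝ) ≤ (p : ℝ) ^ s := by
    have : (0 : ℝ) ≤ p / (η * (α * β) ^ 2) := by positivity
    linarith
  have hcd : Fintype.card ((Fin (r * q) → Fin n) × (Fin (2 * s) → ZMod p)) =
      n ^ (r * q) * p ^ (2 * s) := by
    rw [Fintype.card_prod, Fintype.card_fun, Fintype.card_fun, Fintype.card_fin,
      Fintype.card_fin, Fintype.card_fin, ZMod.card]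
  refine ⟨(Fin (r * q) → Fin n) × (Fin (2 * s) → ZMod p), inferInstance, inferInstance,
    GT G p g r (r * q) (2 * s), inferInstance, ?_, ?_⟩
  · rw [hcd]
    have h1 : N ≤ p ^ s := by exact_mod_cast hs2
    calc N ≤ p ^ s := h1
      _ ≤ p ^ (2 * s) := Nat.pow_le_pow_right hpp.pos (by omega)
      _ = 1 * p ^ (2 * s) := (one_mul _).symm
      _ ≤ n ^ (r * q) * p ^ (2 * s) := Nat.mul_le_mul_right _ (Nat.pow_pos hn0)
  · intro U hU hreg
    rw [hcd]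
    push_cast
    by_contra hcon
    push Not at hcon
    have h1 : ((n : ℝ) ^ (r * q)) ^ 2 * (p : ℝ) ^ (3 * s + 1) ≤ η * (α * U.card) ^ 2 := by
      have h2 : (α * (β * ((n : ℝ) ^ (r * q) * (p : ℝ) ^ (2 * s)))) ^ 2 ≤
          (α * U.card) ^ 2 := by
        gcongr
      have h3 : (p : ℝ) ≤ (p : ℝ) ^ s * (η * (α * β) ^ 2) := by
        rwa [div_le_iff₀ (by positivity)] at hs1
      calc ((n : ℝ) ^ (r * q)) ^ 2 * (p : ℝ) ^ (3 * s + 1)
          = (((n : ℝ) ^ (r * q)) ^ 2 * (p : ℝ) ^ (3 * s)) * p := by ring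
        _ ≤ (((n : ℝ) ^ (r * q)) ^ 2 * (p : ℝ) ^ (3 * s)) *
            ((p : ℝ) ^ s * (η * (α * β) ^ 2)) := by gcongr
        _ = η * (α * (β * ((n : ℝ) ^ (r * q) * (p : ℝ) ^ (2 * s)))) ^ 2 := by ring
        _ ≤ _ := by gcongr
    have h2 := main2 (s := s) rfl hr hn hω hG hα hη0 hg hη1 hc U hU h1
      (fun A hA B hB h3 h4 => hreg A hA B hB h3 h4)
    have h3 : 0 < (p : ℝ) ^ (2 * s) := by positivity
    have h4 : 2 * (ω : ℝ) ^ q * (p : ℝ) ^ (2 * s) <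
        β * (n : ℝ) ^ (r * q) * (p : ℝ) ^ (2 * s) := mul_lt_mul_of_pos_right hβ2 h3
    have h5 : β * ((n : ℝ) ^ (r * q) * (p : ℝ) ^ (2 * s)) =
        β * (n : ℝ) ^ (r * q) * (p : ℝ) ^ (2 * s) := by ring
    linarith

end Pool.Agent.RTU
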