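import Mathlib

/-!
# RTU, the numerical lemma

`Λ = log_2 (1 / α)`, `m = ⌊Λ / 4⌋`, `q = ⌊Λ / (2 log_2 (2 m))⌋`: `(2 m) ^ q ≤ 2 ^ (Λ / 2)`, so
`4 * 2 ^ m * α * (2 m) ^ q ≤ 2 ^ (2 - Λ / 4) ≤ 1`; and `m q` is at least `Λ ^ 2 / (32 log_2 Λ)`,
much larger than `Λ`.
-/

set_option autoImplicit false

namespace Pool.Agent.RTU

theorem num_log {x : ℝ} (hx : 400 ≤ x) : 64 * Real.log x ≤ x := by
  have h6 : Real.log 400 ≤ 6 := by
    rw [Real.log_le_iff_le_exp (by norm_num)]
    have h1 := Real.exp_one_gt_d9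
    have h2 : Real.exp 6 = Real.exp 1 ^ 6 := by
      rw [← Real.exp_nat_mul]; norm_num
    rw [h2]
    calc (400 : ℝ) ≤ 2.7182818283 ^ 6 := by norm_num
      _ ≤ Real.exp 1 ^ 6 := pow_le_pow_left₀ (by norm_num) h1.le 6
  have h1 : Real.log x = Real.log 400 + Real.log (x / 400) := by
    rw [← Real.log_mul (by norm_num) (by positivity)]
    congr 1
    field_simp
  have h2 : Real.log (x / 400) ≤ x / 400 - 1 := Real.log_le_sub_one_of_pos (by positivity)
  rw [h1]
  linarith

theorem num : ∃ c : ℝ, 0 < c ∧ c ≤ 1 / 100 ∧ ∀ α : ℝ, 0 < α → α ≤ c → ∃ m q : ℕ, 2 ≤ m ∧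
    4 * 2 ^ m * α * (2 * (m : ℝ)) ^ q ≤ 1 ∧ ∀ r : ℕ, 1 ≤ r →
      2 * (2 * (m : ℝ)) ^ q * Real.exp (c * r * (Real.log (1 / α) ^ 2 /
        Real.log (Real.log (1 / α)))) < 2 ^ (m * (r * q)) := by
  have hc : Real.exp (-400) ≤ 1 / 401 := by
    rw [Real.exp_neg, ← one_div]
    have := Real.add_one_le_exp (400 : ℝ)
    exact one_div_le_one_div_of_le (by norm_num) (by linarith)
  refine ⟨Real.exp (-400), Real.exp_pos _, hc.trans (by norm_num), fun α hα hαc => ?_⟩
  obtain ⟨c, hcdef⟩ : ∃ c : ℝ, c = Real.exp (-400) := ⟨_, rfl⟩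
  rw [← hcdef] at hc hαc ⊢
  have hc0 : 0 < c := by rw [hcdef]; exact Real.exp_pos _
  obtain ⟨L, hL⟩ : ∃ L : ℝ, L = Real.log (1 / α) := ⟨_, rfl⟩
  have hLα : L = -Real.log α := by rw [hL, one_div, Real.log_inv]
  have hL400 : 400 ≤ L := by
    have h1 : Real.log α ≤ -400 := by
      have := Real.log_le_log hα hαc
      rwa [hcdef, Real.log_exp] at this
    linarith
  rw [← hL]
  have hL0 : 0 < L := by linarith
  have hαL : α = Real.exp (-L) := by rw [hLα, neg_neg, Real.exp_log hα]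
  have hlog := num_log hL400
  obtain ⟨l, hl⟩ : ∃ l : ℝ, l = Real.log L := ⟨_, rfl⟩
  rw [← hl] at hlog ⊢
  have hlpos : 0 < l := by rw [hl]; exact Real.log_pos (by linarith)
  have hlog2a := Real.log_two_gt_d9
  have hlog2b := Real.log_two_lt_d9
  obtain ⟨t, ht⟩ : ∃ t : ℝ, t = Real.log 2 := ⟨_, rfl⟩
  rw [← ht] at hlog2a hlog2b
  have ht0 : 0 < t := by linarith
  -- `m`
  obtain ⟨m, hm⟩ : ∃ m : ℕ, m = ⌊L / (4 * t)⌋₊ := ⟨_, rfl⟩
  have hm1 : (m : ℝ) * t ≤ L / 4 := by
    have h1 : (m : ℝ) ≤ L / (4 * t) := by rw [hm]; exact Nat.floor_le (by positivity)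
    rw [le_div_iff₀ (by positivity)] at h1
    linarith
  have hm2 : L / 4 < ((m : ℝ) + 1) * t := by
    have h1 : L / (4 * t) < (m : ℝ) + 1 := by rw [hm]; exact Nat.lt_floor_add_one _
    rw [div_lt_iff₀ (by positivity)] at h1
    linarith
  have hmge : (2 : ℝ) < m := by
    have h1 : (100 : ℝ) < ((m : ℝ) + 1) * t := by linarith
    nlinarith
  have hm2' : 2 ≤ m := by exact_mod_cast hmge.le
  have h2m : 2 * (m : ℝ) ≤ L := by nlinarith
  have h2m1 : 1 < 2 * (m : ℝ) := by linarith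
  obtain ⟨g, hg⟩ : ∃ g : ℝ, g = Real.log (2 * (m : ℝ)) := ⟨_, rfl⟩
  have hg0 : 0 < g := by rw [hg]; exact Real.log_pos h2m1
  have hgl : g ≤ l := by rw [hg, hl]; exact Real.log_le_log (by linarith) h2m
  -- `q`
  obtain ⟨q, hq⟩ : ∃ q : ℕ, q = ⌊L / (2 * g)⌋₊ := ⟨_, rfl⟩
  have hq1 : (q : ℝ) * g ≤ L / 2 := by
    have h1 : (q : ℝ) ≤ L / (2 * g) := by rw [hq]; exact Nat.floor_le (by positivity)
    rw [le_div_iff₀ (by positivity)] at h1
    linarith
  have hq2 : L / (2 * l) < (q : ℝ) + 1 := by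
    have h1 : L / (2 * g) < (q : ℝ) + 1 := by rw [hq]; exact Nat.lt_floor_add_one _
    have h2 : L / (2 * l) ≤ L / (2 * g) := by gcongr
    linarith
  have hpow2 : (2 : ℝ) ^ m = Real.exp (m * t) := by
    rw [ht, Real.exp_nat_mul, Real.exp_log (by norm_num)]
  have hpowq : (2 * (m : ℝ)) ^ q = Real.exp (q * g) := by
    rw [hg, Real.exp_nat_mul, Real.exp_log (by linarith)]
  refine ⟨m, q, hm2', ?_, fun r hr => ?_⟩
  · rw [hpow2, hpowq, hαL]
    have h4 : (4 : ℝ) ≤ Real.exp 4 := by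
      have := Real.add_one_le_exp (4 : ℝ)
      linarith
    calc 4 * Real.exp (m * t) * Real.exp (-L) * Real.exp (q * g)
        ≤ Real.exp 4 * Real.exp (m * t) * Real.exp (-L) * Real.exp (q * g) := by gcongr
      _ = Real.exp (4 + m * t + -L + q * g) := by
          rw [Real.exp_add, Real.exp_add, Real.exp_add]
      _ ≤ 1 := by
          rw [Real.exp_le_one_iff]
          linarith
  · have hpow3 : (2 : ℝ) ^ (m * (r * q)) = Real.exp (((m : ℝ) * t) * (r * q)) := by
      rw [pow_mul, hpow2, ← Real.exp_nat_mul]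
      congr 1
      push_cast
      ring
    have h2e : (2 : ℝ) ≤ Real.exp 1 := by
      have := Real.add_one_le_exp (1 : ℝ)
      linarith
    rw [hpow3, hpowq]
    obtain ⟨W, hW⟩ : ∃ W : ℝ, W = L ^ 2 / (64 * l) := ⟨_, rfl⟩
    have hWL : L ≤ W := by
      rw [hW, le_div_iff₀ (by positivity)]
      nlinarith
    have hW2 : L ^ 2 / l = 64 * W := by
      rw [hW]
      field_simp
    have hr1 : (1 : ℝ) ≤ r := by exact_mod_cast hr
    have hmt : L / 8 ≤ m * t := by linarith
    have hq3 : L / (4 * l) ≤ q := by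
      have h1 : (16 : ℝ) ≤ L / (4 * l) := by
        rw [le_div_iff₀ (by positivity)]
        linarith
      have h2 : L / (2 * l) = 2 * (L / (4 * l)) := by
        field_simp
        ring
      rw [h2] at hq2
      linarith
    have hmq : 2 * W ≤ (m * t) * q := by
      calc 2 * W = (L / 8) * (L / (4 * l)) := by
            rw [hW]
            field_simp
            ring
        _ ≤ (m * t) * q := mul_le_mul hmt hq3 (by positivity) (by positivity)
    rw [hW2]
    calc 2 * Real.exp (q * g) * Real.exp (c * r * (64 * W))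
        ≤ Real.exp 1 * Real.exp (q * g) * Real.exp (c * r * (64 * W)) := by gcongr
      _ = Real.exp (1 + q * g + c * r * (64 * W)) := by
          rw [Real.exp_add, Real.exp_add]
      _ < Real.exp ((m : ℝ) * t * (r * q)) := by
          rw [Real.exp_lt_exp]
          have hW0 : 0 < W := by linarith
          have h1 : c * r * (64 * W) ≤ r * W := by
            have h2 : 64 * c ≤ 1 := by linarith
            have h3 : 0 ≤ r * W := by positivity
            calc c * r * (64 * W) = (64 * c) * (r * W) := by ring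
              _ ≤ 1 * (r * W) := mul_le_mul_of_nonneg_right h2 h3
              _ = r * W := one_mul _
          have h4 : r * (2 * W) ≤ (m : ℝ) * t * (r * q) := by
            calc r * (2 * W) ≤ r * ((m * t) * q) := by gcongr
              _ = (m : ℝ) * t * (r * q) := by ring
          have h5 : W ≤ r * W := by nlinarith
          linarith

end Pool.Agent.RTU
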