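import Pool.Agent.RTU.Defs
import Pool.Agent.Hhelper59.Rk.Lower

/-!
# RTU, a graph on `2 ^ m` vertices without homogeneous sets of more than `2 m` elements (Erdős 1947)
-/

set_option autoImplicit false

namespace Pool.Agent.RTU

open Finset

theorem exists_hom (m : ℕ) (hm : 2 ≤ m) : ∃ G : SimpleGraph (Fin (2 ^ m)), Hom G (2 * m) := by
  have h0 : (2 ^ m) ^ 2 < 2 ^ (2 * m + 1) := by
    rw [← pow_mul]
    exact Nat.pow_lt_pow_right (by norm_num) (by omega)
  obtain ⟨G, h1, h2⟩ := Pool.Agent.Hhelper59.Rk.exists_graph (2 ^ m) (2 * m + 1)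
    (Pool.Agent.Hhelper59.Rk.choose_lt _ _ (by omega) h0)
  refine ⟨G, fun T hT => ?_⟩
  by_contra hcon
  obtain ⟨T', hT', hc⟩ := exists_subset_card_eq (by omega : 2 * m + 1 ≤ T.card)
  rcases hT with h | h
  · refine h1 T' ⟨?_, hc⟩
    intro c hc d hd hcd
    exact h c (hT' hc) d (hT' hd) hcd
  · refine h2 T' ⟨?_, hc⟩
    intro c hc d hd hcd
    rw [SimpleGraph.compl_adj]
    exact ⟨hcd, h c (hT' hc) d (hT' hd) hcd⟩

end Pool.Agent.RTU
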