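import Pool.Agent.RTU.Fin
import Pool.Agent.RTU.Num
import Pool.Agent.RTU.Ramsey

/-!
# RTU, the final assembly

`n = 2 ^ m`, `ω = 2 m` (`num`); `δ < 1 / 24`: `⌊1 / (8 δ)⌋ < p ≤ 2 ⌊1 / (8 δ)⌋`, `g = 1`,
`r = (p + 1) / 2`; `δ ≥ 1 / 24`: `p = g = 2`, `r = 1`.
-/

set_option autoImplicit false

namespace Pool.Agent.RTU

open Finset

theorem pick {δ : ℝ} (h0 : 0 < δ) (h1 : δ < 1 / 2) : ∃ p g r : ℕ, p.Prime ∧ 1 ≤ r ∧
    g * (2 * r - 1) ≤ p ∧ 2 * δ < (g : ℝ) / p ∧ 1 / (24 * δ) ≤ (r : ℝ) := by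
  by_cases h : δ < 1 / 24
  · obtain ⟨n0, hn0⟩ : ∃ n0 : ℕ, n0 = ⌊1 / (8 * δ)⌋₊ := ⟨_, rfl⟩
    have h2 : (n0 : ℝ) ≤ 1 / (8 * δ) := by rw [hn0]; exact Nat.floor_le (by positivity)
    have h3 : 1 / (8 * δ) < (n0 : ℝ) + 1 := by rw [hn0]; exact Nat.lt_floor_add_one _
    have h4 : 3 < 1 / (8 * δ) := by rw [lt_div_iff₀ (by positivity)]; linarith
    have h5 : n0 ≠ 0 := by
      intro h6
      rw [h6] at h3
      push_cast at h3
      linarith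
    obtain ⟨p, hpp, hp1, hp2⟩ := Nat.exists_prime_lt_and_le_two_mul n0 h5
    have hp3 : (n0 : ℝ) + 1 ≤ p := by exact_mod_cast hp1
    have hp4 : (p : ℝ) ≤ 2 * n0 := by exact_mod_cast hp2
    have hp0 : (0 : ℝ) < p := by exact_mod_cast hpp.pos
    have hp2' := hpp.two_le
    refine ⟨p, 1, (p + 1) / 2, hpp, by omega, by omega, ?_, ?_⟩
    · rw [Nat.cast_one, lt_div_iff₀ hp0]
      have h6 : (p : ℝ) ≤ 2 * (1 / (8 * δ)) := by linarith
      calc 2 * δ * p ≤ 2 * δ * (2 * (1 / (8 * δ))) := by gcongr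
        _ = 1 / 2 := by field_simp; norm_num
        _ < 1 := by norm_num
    · have h6 : p ≤ 2 * ((p + 1) / 2) := by omega
      have h7 : (p : ℝ) ≤ 2 * (((p + 1) / 2 : ℕ) : ℝ) := by exact_mod_cast h6
      have h8 : 1 / (24 * δ) = 1 / (8 * δ) / 3 := by field_simp; norm_num
      rw [h8]
      linarith
  · push Not at h
    refine ⟨2, 2, 1, Nat.prime_two, le_refl _, by norm_num, by norm_num; linarith, ?_⟩
    rw [Nat.cast_one, div_le_iff₀ (by positivity)]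
    linarith

theorem final : ∃ c : ℝ, 0 < c ∧ ∀ α δ : ℝ, 0 < α → α ≤ c → 0 < δ → δ < 1 / 2 → ∀ N : ℕ,
    ∃ (V : Type) (_ : Fintype V) (_ : DecidableEq V) (G : SimpleGraph V)
      (_ : DecidableRel G.Adj), N ≤ Fintype.card V ∧
      ∀ U : Finset V, U.Nonempty →
        (∀ A, A ⊆ U → ∀ B, B ⊆ U → α * U.card ≤ A.card → α * U.card ≤ B.card →
          |(G.edgeDensity A B : ℝ) - (G.edgeDensity U U : ℝ)| ≤ δ) →
        (U.card : ℝ) < Real.exp (-(c / δ * (Real.log (1 / α) ^ 2 /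
          Real.log (Real.log (1 / α))))) * (Fintype.card V : ℝ) := by
  obtain ⟨c, hc0, hc1, hc⟩ := num
  refine ⟨c / 24, by positivity, fun α δ hα hαc hδ hδ2 N => ?_⟩
  obtain ⟨m, q, hm, h1, h2⟩ := hc α hα (by linarith)
  obtain ⟨p, g, r, hpp, hr, hg, hgδ, hrδ⟩ := pick hδ hδ2
  have : Fact p.Prime := ⟨hpp⟩
  obtain ⟨G, hG⟩ := exists_hom m hm
  classical
  have hL : 1 ≤ Real.log (1 / α) := by
    rw [Real.le_log_iff_exp_le (by positivity), le_div_iff₀ hα]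
    have h3 := Real.exp_one_lt_d9
    have h4 : α ≤ 1 / 100 := by linarith
    have h5 : (0 : ℝ) < Real.exp 1 := Real.exp_pos _
    nlinarith
  obtain ⟨X, hX⟩ : ∃ X : ℝ, X = Real.log (1 / α) ^ 2 / Real.log (Real.log (1 / α)) := ⟨_, rfl⟩
  have hX0 : 0 ≤ X := by
    rw [hX]
    exact div_nonneg (sq_nonneg _) (Real.log_nonneg hL)
  rw [← hX]
  have h3 := h2 r hr
  rw [← hX] at h3
  have h4 : c / 24 / δ ≤ c * r := by
    have e : c / 24 / δ = c * (1 / (24 * δ)) := by field_simp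
    rw [e]
    exact mul_le_mul_of_nonneg_left hrδ hc0.le
  have h5 : Real.exp (c / 24 / δ * X) ≤ Real.exp (c * r * X) :=
    Real.exp_le_exp.2 (mul_le_mul_of_nonneg_right h4 hX0)
  have h6 : 2 * ((2 * m : ℕ) : ℝ) ^ q * Real.exp (c / 24 / δ * X) <
      ((2 ^ m : ℕ) : ℝ) ^ (r * q) := by
    have e1 : ((2 ^ m : ℕ) : ℝ) ^ (r * q) = 2 ^ (m * (r * q)) := by
      push_cast
      rw [← pow_mul]
    have e2 : ((2 * m : ℕ) : ℝ) = 2 * (m : ℝ) := by push_cast; ring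
    rw [e1, e2]
    refine lt_of_le_of_lt ?_ h3
    gcongr
  refine fin_bound (n := 2 ^ m) (ω := 2 * m) (q := q) (G := G) hr ?_ (by omega) hG hα hg hgδ ?_
    (Real.exp_pos _) ?_ N
  · calc 2 = 2 ^ 1 := rfl
      _ ≤ 2 ^ m := Nat.pow_le_pow_right (by norm_num) (by omega)
  · push_cast
    exact h1
  · rw [Real.exp_neg]
    have h7 : 0 < Real.exp (c / 24 / δ * X) := Real.exp_pos _
    rw [mul_comm (Real.exp _)⁻¹, ← div_eq_mul_inv, lt_div_iff₀ h7]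
    exact h6

end Pool.Agent.RTU
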