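import Pool.Agent.RTU.Defs

/-!
# RTU, kernel lemma

Follow heaviest children.  At levels whose two values are far below (above) `D` the mass leaving the
path is less than `α M` in total (a pair of sets of too small (large) density); there are at most `q`
other levels, there the heavy children are homogeneous in `G`, at most `ω` of them.
-/

set_option autoImplicit false

namespace Pool.Agent.RTU

open Finset Pool.Agent.RSU

variable {K n : ℕ}

/-! ### levels -/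

theorem lev_self (x : Fin K → Fin n) : lev x x = K :=
  le_antisymm (lev_le x x) (le_lev le_rfl fun _ _ => rfl)

theorem lev_spec {a b : Fin K → Fin n} (h : a ≠ b) :
    ∃ hk : lev a b < K, (∀ j : Fin K, (j : ℕ) < lev a b → a j = b j) ∧
      a ⟨lev a b, hk⟩ ≠ b ⟨lev a b, hk⟩ := by
  classical
  have hex : ∃ k, ∃ hk : k < K, a ⟨k, hk⟩ ≠ b ⟨k, hk⟩ := by
    by_contra hc
    push Not at hc
    exact h (funext fun j => hc j j.2)
  obtain ⟨hk, hne⟩ := Nat.find_spec hex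
  have h1 : ∀ j : Fin K, (j : ℕ) < Nat.find hex → a j = b j := by
    intro j hj
    have := Nat.find_min hex hj
    push Not at this
    exact this j.2
  have h2 : lev a b = Nat.find hex := lev_eq hk h1 hne
  have h3 : ∀ k, lev a b = k → ∀ hk : k < K, (∀ j : Fin K, (j : ℕ) < k → a j = b j) →
      a ⟨k, hk⟩ ≠ b ⟨k, hk⟩ → ∃ hk : lev a b < K, (∀ j : Fin K, (j : ℕ) < lev a b → a j = b j) ∧
      a ⟨lev a b, hk⟩ ≠ b ⟨lev a b, hk⟩ := by
    intro k e hk' h1' h2'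
    subst e
    exact ⟨hk', h1', h2'⟩
  exact h3 _ h2 hk h1 hne

theorem ag_iff {a x : Fin K → Fin n} {l : ℕ} (hl : l ≤ K) :
    (∀ j : Fin K, (j : ℕ) < l → a j = x j) ↔ l ≤ lev a x := by
  constructor
  · exact fun h => le_lev hl h
  · intro h j hj
    by_cases hax : a = x
    · rw [hax]
    · obtain ⟨-, h1, -⟩ := lev_spec hax
      exact h1 j (lt_of_lt_of_le hj h)

theorem lev_of_lt {a b x : Fin K → Fin n} {l : ℕ} (hl : l ≤ K) (ha : lev a x < l)
    (hb : l ≤ lev b x) : lev a b = lev a x ∧ a ≠ b := by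
  have hax : a ≠ x := by
    rintro rfl
    rw [lev_self] at ha
    omega
  have hab : a ≠ b := by
    rintro rfl
    omega
  have hb' := (ag_iff hl).2 hb
  obtain ⟨hk, h1, h2⟩ := lev_spec hax
  refine ⟨lev_eq hk (fun j hj => ?_) ?_, hab⟩
  · rw [h1 j hj, hb' j (by omega)]
  · rw [hb' ⟨lev a x, hk⟩ ha]
    exact h2

/-- the node of `x` at level `l` -/
def Nd (x : Fin K → Fin n) (l : ℕ) : Finset (Fin K → Fin n) :=
  univ.filter fun a => l ≤ lev a x

theorem upd_lev {a x : Fin K → Fin n} {l : ℕ} (hl : l < K) (c : Fin n) {i : ℕ} (hi : i ≤ l) :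
    i ≤ lev a (Function.update x ⟨l, hl⟩ c) ↔ i ≤ lev a x := by
  rw [← ag_iff (by omega), ← ag_iff (by omega)]
  refine forall_congr' fun j => imp_congr_right fun hj => ?_
  have : j ≠ ⟨l, hl⟩ := by
    intro h
    rw [h] at hj
    simp only at hj
    omega
  rw [Function.update_of_ne this]

theorem upd_lev_eq {a x : Fin K → Fin n} {l : ℕ} (hl : l < K) (c : Fin n)
    (h : lev a (Function.update x ⟨l, hl⟩ c) < l) :
    lev a (Function.update x ⟨l, hl⟩ c) = lev a x := by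
  have h1 := (upd_lev (a := a) (x := x) hl c (i := lev a (Function.update x ⟨l, hl⟩ c)) h.le).1
    le_rfl
  have h2 := (upd_lev (a := a) (x := x) hl c
    (i := lev a (Function.update x ⟨l, hl⟩ c) + 1) h)
  by_contra hne
  have h3 := h2.2 (by omega)
  omega

theorem upd_succ {a x : Fin K → Fin n} {l : ℕ} (hl : l < K) (c : Fin n) :
    l + 1 ≤ lev a (Function.update x ⟨l, hl⟩ c) ↔ l ≤ lev a x ∧ a ⟨l, hl⟩ = c := by
  rw [← ag_iff (by omega), ← ag_iff hl.le]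
  constructor
  · intro h
    refine ⟨fun j hj => ?_, ?_⟩
    · have := h j (by omega)
      rwa [Function.update_of_ne] at this
      intro h'
      rw [h'] at hj
      simp only at hj
      omega
    · have := h ⟨l, hl⟩ (by simp)
      rwa [Function.update_self] at this
  · rintro ⟨h, hc⟩ j hj
    by_cases hjl : j = ⟨l, hl⟩
    · rw [hjl, Function.update_self]
      exact hc
    · rw [Function.update_of_ne hjl]
      refine h j ?_
      have : (j : ℕ) ≠ l := fun h' => hjl (Fin.ext h')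
      omega

theorem Nd_upd (x : Fin K → Fin n) {l : ℕ} (hl : l < K) (c : Fin n) :
    Nd (Function.update x ⟨l, hl⟩ c) (l + 1) = (Nd x l).filter fun a => a ⟨l, hl⟩ = c := by
  ext a
  simp only [Nd, mem_filter, mem_univ, true_and]
  exact upd_succ hl c

theorem lev_child {a b x : Fin K → Fin n} {l : ℕ} (hl : l < K) (ha : l ≤ lev a x)
    (hb : l ≤ lev b x) (hne : a ⟨l, hl⟩ ≠ b ⟨l, hl⟩) : lev a b = l := by
  have h1 := (ag_iff hl.le).2 ha
  have h2 := (ag_iff hl.le).2 hb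
  exact lev_eq hl (fun j hj => by rw [h1 j hj, h2 j hj]) hne

theorem col_child (G : SimpleGraph (Fin n)) [DecidableRel G.Adj] (r : ℕ) {a b : Fin K → Fin n}
    {l : ℕ} (hl : l < K) (h : lev a b = l) :
    col G r a b = 2 * (l % r) + if G.Adj (a ⟨l, hl⟩) (b ⟨l, hl⟩) then 1 else 0 := by
  subst h
  unfold col
  congr 1
  by_cases hG : G.Adj (a ⟨lev a b, hl⟩) (b ⟨lev a b, hl⟩)
  · rw [if_pos hG, if_pos ⟨hl, hG⟩]
  · rw [if_neg hG, if_neg]
    rintro ⟨_, h⟩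
    exact hG h

theorem col_le (G : SimpleGraph (Fin n)) [DecidableRel G.Adj] (r : ℕ) (a b : Fin K → Fin n) :
    col G r a b ≤ 2 * (lev a b % r) + 1 := by
  unfold col
  split_ifs <;> omega

theorem le_col (G : SimpleGraph (Fin n)) [DecidableRel G.Adj] (r : ℕ) (a b : Fin K → Fin n) :
    2 * (lev a b % r) ≤ col G r a b := by
  unfold col
  omega

/-! ### weights -/

theorem wt_mono {μ : (Fin K → Fin n) → ℝ} (h0 : ∀ a, 0 ≤ μ a) {X Y : Finset (Fin K → Fin n)}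
    (h : X ⊆ Y) : wt μ X ≤ wt μ Y := sum_le_sum_of_subset_of_nonneg h fun a _ _ => h0 a

theorem wt_union_le {μ : (Fin K → Fin n) → ℝ} (h0 : ∀ a, 0 ≤ μ a) (X Y : Finset (Fin K → Fin n)) :
    wt μ (X ∪ Y) ≤ wt μ X + wt μ Y := by
  classical
  unfold wt
  rw [← sum_union_inter]
  exact le_add_of_nonneg_right (sum_nonneg fun a _ => h0 a)

theorem E1_le {G : SimpleGraph (Fin n)} [DecidableRel G.Adj] {r : ℕ} {γ t : ℝ}
    {μ : (Fin K → Fin n) → ℝ} (h0 : ∀ a, 0 ≤ μ a) {X Y : Finset (Fin K → Fin n)}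
    (h : ∀ a ∈ X, ∀ b ∈ Y, D1 G r γ a b ≤ t) : E1 G r γ μ X Y ≤ t * (wt μ X * wt μ Y) := by
  unfold E1
  rw [wt_mul, mul_sum]
  refine sum_le_sum fun a ha => ?_
  rw [mul_sum]
  refine sum_le_sum fun b hb => ?_
  rw [mul_comm t]
  exact mul_le_mul_of_nonneg_left (h a ha b hb) (mul_nonneg (h0 a) (h0 b))

theorem le_E1 {G : SimpleGraph (Fin n)} [DecidableRel G.Adj] {r : ℕ} {γ t : ℝ}
    {μ : (Fin K → Fin n) → ℝ} (h0 : ∀ a, 0 ≤ μ a) {X Y : Finset (Fin K → Fin n)}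
    (h : ∀ a ∈ X, ∀ b ∈ Y, t ≤ D1 G r γ a b) : t * (wt μ X * wt μ Y) ≤ E1 G r γ μ X Y := by
  unfold E1
  rw [wt_mul, mul_sum]
  refine sum_le_sum fun a ha => ?_
  rw [mul_sum]
  refine sum_le_sum fun b hb => ?_
  rw [mul_comm t]
  exact mul_le_mul_of_nonneg_left (h a ha b hb) (mul_nonneg (h0 a) (h0 b))

/-- levels with both values far below `D` -/
def Low (r : ℕ) (γ δ₂ D : ℝ) (i : ℕ) : Prop := γ * (2 * ((i % r : ℕ) : ℝ) + 1) ≤ D - δ₂

/-- levels with both values far above `D` -/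
def High (r : ℕ) (γ δ₂ D : ℝ) (i : ℕ) : Prop := D + δ₂ ≤ γ * (2 * ((i % r : ℕ) : ℝ))

/-- the other levels -/
def Win (r : ℕ) (γ δ₂ D : ℝ) (i : ℕ) : Prop := ¬ Low r γ δ₂ D i ∧ ¬ High r γ δ₂ D i

theorem win_mod {r : ℕ} {γ δ₂ D : ℝ} (hγ0 : 0 ≤ γ) (hγ : 2 * δ₂ < γ) {i j : ℕ}
    (hi : Win r γ δ₂ D i) (hj : Win r γ δ₂ D j) : i % r ≤ j % r := by
  by_contra hlt
  push Not at hlt
  have h1 := hj.1
  have h2 := hi.2
  unfold Low at h1
  unfold High at h2
  push Not at h1 h2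
  have h3 : ((j % r : ℕ) : ℝ) + 1 ≤ ((i % r : ℕ) : ℝ) := by exact_mod_cast hlt
  have h4 : γ * (((j % r : ℕ) : ℝ) + 1) ≤ γ * ((i % r : ℕ) : ℝ) := mul_le_mul_of_nonneg_left h3 hγ0
  nlinarith

open scoped Classical in
/-- number of windows before level `l` -/
noncomputable def wn (r : ℕ) (γ δ₂ D : ℝ) (l : ℕ) : ℕ :=
  ((range l).filter fun i => Win r γ δ₂ D i).card

theorem wn_zero (r : ℕ) (γ δ₂ D : ℝ) : wn r γ δ₂ D 0 = 0 := by
  simp [wn]

theorem wn_succ_win {r : ℕ} {γ δ₂ D : ℝ} {l : ℕ} (h : Win r γ δ₂ D l) :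
    wn r γ δ₂ D (l + 1) = wn r γ δ₂ D l + 1 := by
  classical
  unfold wn
  rw [range_add_one, filter_insert, if_pos h, card_insert_of_notMem]
  simp

theorem wn_succ_not {r : ℕ} {γ δ₂ D : ℝ} {l : ℕ} (h : ¬ Win r γ δ₂ D l) :
    wn r γ δ₂ D (l + 1) = wn r γ δ₂ D l := by
  classical
  unfold wn
  rw [range_add_one, filter_insert, if_neg h]

theorem wn_le {r q : ℕ} {γ δ₂ D : ℝ} (hr : 1 ≤ r) (hγ0 : 0 ≤ γ) (hγ : 2 * δ₂ < γ) {l : ℕ}
    (hl : l ≤ r * q) : wn r γ δ₂ D l ≤ q := by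
  classical
  unfold wn
  have h1 : ((range l).filter fun i => Win r γ δ₂ D i).card ≤ (range q).card := by
    refine card_le_card_of_injOn (fun i => i / r) ?_ ?_
    · intro i hi
      have hi' := (mem_filter.1 (mem_coe.1 hi)).1
      rw [mem_range] at hi'
      rw [mem_coe, mem_range]
      exact Nat.div_lt_of_lt_mul (lt_of_lt_of_le hi' hl)
    · intro i hi j hj hij
      have hi' := (mem_filter.1 (mem_coe.1 hi)).2
      have hj' := (mem_filter.1 (mem_coe.1 hj)).2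
      have e : i % r = j % r := le_antisymm (win_mod hγ0 hγ hi' hj') (win_mod hγ0 hγ hj' hi')
      have hij' : i / r = j / r := hij
      rw [← Nat.div_add_mod i r, ← Nat.div_add_mod j r, e, hij']
  rwa [card_range] at h1

/-! ### loss at low and high levels -/

/-- the mass which has left the path at levels which are not windows -/
noncomputable def Ls (r : ℕ) (γ δ₂ D : ℝ) (x : Fin K → Fin n) (l : ℕ) : Finset (Fin K → Fin n) := by
  classical
  exact univ.filter fun b => lev b x < l ∧ ¬ Win r γ δ₂ D (lev b x)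

theorem mem_Ls {r : ℕ} {γ δ₂ D : ℝ} {x b : Fin K → Fin n} {l : ℕ} :
    b ∈ Ls r γ δ₂ D x l ↔ lev b x < l ∧ ¬ Win r γ δ₂ D (lev b x) := by
  classical
  unfold Ls
  simp

theorem mem_Nd {x a : Fin K → Fin n} {l : ℕ} : a ∈ Nd x l ↔ l ≤ lev a x := by
  simp [Nd]

theorem loss {G : SimpleGraph (Fin n)} [DecidableRel G.Adj] {r : ℕ} {γ α δ₁ δ₂ D M : ℝ}
    {μ : (Fin K → Fin n) → ℝ} (hγ0 : 0 ≤ γ) (hα : 0 < α) (h12 : δ₁ < δ₂)
    (h0 : ∀ a, 0 ≤ μ a) (hM0 : 0 < M)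
    (H : ∀ X Y : Finset (Fin K → Fin n), α * M ≤ wt μ X → α * M ≤ wt μ Y →
      |E1 G r γ μ X Y - D * (wt μ X * wt μ Y)| ≤ δ₁ * (wt μ X * wt μ Y))
    (x : Fin K → Fin n) {l : ℕ} (hl : l ≤ K) (hx : α * M ≤ wt μ (Nd x l)) :
    wt μ (Ls r γ δ₂ D x l) ≤ 2 * (α * M) := by
  classical
  have hA : 0 < α * M := mul_pos hα hM0
  obtain ⟨Lo, hLo⟩ : ∃ Lo : Finset (Fin K → Fin n),
      Lo = univ.filter fun b => lev b x < l ∧ Low r γ δ₂ D (lev b x) := ⟨_, rfl⟩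
  obtain ⟨Hi, hHi⟩ : ∃ Hi : Finset (Fin K → Fin n),
      Hi = univ.filter fun b => lev b x < l ∧ High r γ δ₂ D (lev b x) := ⟨_, rfl⟩
  have hsub : Ls r γ δ₂ D x l ⊆ Lo ∪ Hi := by
    intro b hb
    rw [mem_Ls] at hb
    rw [mem_union, hLo, hHi, mem_filter, mem_filter]
    by_cases h1 : Low r γ δ₂ D (lev b x)
    · exact Or.inl ⟨mem_univ _, hb.1, h1⟩
    · refine Or.inr ⟨mem_univ _, hb.1, ?_⟩
      by_contra h2
      exact hb.2 ⟨h1, h2⟩
  have hlo : wt μ Lo < α * M := by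
    by_contra hc
    push Not at hc
    have h1 := (abs_le.1 (H Lo (Nd x l) hc hx)).1
    have h2 : 0 < wt μ Lo * wt μ (Nd x l) := mul_pos (by linarith) (by linarith)
    have h3 : E1 G r γ μ Lo (Nd x l) ≤ (D - δ₂) * (wt μ Lo * wt μ (Nd x l)) := by
      refine E1_le h0 fun a ha b hb => ?_
      rw [hLo, mem_filter] at ha
      rw [mem_Nd] at hb
      obtain ⟨e1, e2⟩ := lev_of_lt hl ha.2.1 hb
      unfold D1
      rw [if_neg e2]
      have h4 : ((col G r a b : ℕ) : ℝ) ≤ 2 * ((lev a x % r : ℕ) : ℝ) + 1 := by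
        have := col_le G r a b
        rw [e1] at this
        exact_mod_cast this
      exact (mul_le_mul_of_nonneg_left h4 hγ0).trans ha.2.2
    nlinarith
  have hhi : wt μ Hi < α * M := by
    by_contra hc
    push Not at hc
    have h1 := (abs_le.1 (H Hi (Nd x l) hc hx)).2
    have h2 : 0 < wt μ Hi * wt μ (Nd x l) := mul_pos (by linarith) (by linarith)
    have h3 : (D + δ₂) * (wt μ Hi * wt μ (Nd x l)) ≤ E1 G r γ μ Hi (Nd x l) := by
      refine le_E1 h0 fun a ha b hb => ?_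
      rw [hHi, mem_filter] at ha
      rw [mem_Nd] at hb
      obtain ⟨e1, e2⟩ := lev_of_lt hl ha.2.1 hb
      unfold D1
      rw [if_neg e2]
      have h4 : 2 * ((lev a x % r : ℕ) : ℝ) ≤ ((col G r a b : ℕ) : ℝ) := by
        have := le_col G r a b
        rw [e1] at this
        exact_mod_cast this
      exact ha.2.2.trans (mul_le_mul_of_nonneg_left h4 hγ0)
    nlinarith
  have := (wt_mono h0 hsub).trans (wt_union_le h0 Lo Hi)
  linarith

/-! ### heavy children -/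

theorem child_hom {G : SimpleGraph (Fin n)} [DecidableRel G.Adj] {r ω : ℕ} {γ α δ₁ δ₂ D M : ℝ}
    {μ : (Fin K → Fin n) → ℝ} (hG : Hom G ω) (hα : 0 < α) (h12 : δ₁ < δ₂) (hγ : 2 * δ₂ < γ)
    (h0 : ∀ a, 0 ≤ μ a) (hM0 : 0 < M)
    (H : ∀ X Y : Finset (Fin K → Fin n), α * M ≤ wt μ X → α * M ≤ wt μ Y →
      |E1 G r γ μ X Y - D * (wt μ X * wt μ Y)| ≤ δ₁ * (wt μ X * wt μ Y))
    (x : Fin K → Fin n) {l : ℕ} (hl : l < K) (T : Finset (Fin n))
    (hT : ∀ c ∈ T, α * M ≤ wt μ ((Nd x l).filter fun a => a ⟨l, hl⟩ = c)) : T.card ≤ ω := by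
  have hA : 0 < α * M := mul_pos hα hM0
  have key : ∀ c ∈ T, ∀ d ∈ T, c ≠ d →
      |γ * (2 * ((l % r : ℕ) : ℝ) + if G.Adj c d then 1 else 0) - D| ≤ δ₁ := by
    intro c hc d hd hcd
    have hX := hT c hc
    have hY := hT d hd
    have h1 := H _ _ hX hY
    obtain ⟨W, hW⟩ : ∃ W : ℝ, W = wt μ ((Nd x l).filter fun a => a ⟨l, hl⟩ = c) *
      wt μ ((Nd x l).filter fun a => a ⟨l, hl⟩ = d) := ⟨_, rfl⟩
    have hW0 : 0 < W := by
      rw [hW]
      exact mul_pos (by linarith) (by linarith)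
    have hval : ∀ a ∈ (Nd x l).filter (fun a => a ⟨l, hl⟩ = c),
        ∀ b ∈ (Nd x l).filter (fun a => a ⟨l, hl⟩ = d),
        D1 G r γ a b = γ * (2 * ((l % r : ℕ) : ℝ) + if G.Adj c d then 1 else 0) := by
      intro a ha b hb
      rw [mem_filter, mem_Nd] at ha hb
      have hne : a ⟨l, hl⟩ ≠ b ⟨l, hl⟩ := by
        rw [ha.2, hb.2]
        exact hcd
      have hab : a ≠ b := fun h => hne (by rw [h])
      have e := lev_child hl ha.1 hb.1 hne
      unfold D1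
      rw [if_neg hab, col_child G r hl e, ha.2, hb.2]
      push_cast
      rfl
    have h2 : E1 G r γ μ ((Nd x l).filter fun a => a ⟨l, hl⟩ = c)
        ((Nd x l).filter fun a => a ⟨l, hl⟩ = d) =
        γ * (2 * ((l % r : ℕ) : ℝ) + if G.Adj c d then 1 else 0) * W := by
      rw [hW]
      exact le_antisymm (E1_le h0 fun a ha b hb => (hval a ha b hb).le)
        (le_E1 h0 fun a ha b hb => (hval a ha b hb).ge)
    rw [h2, ← hW, ← sub_mul, abs_mul, abs_of_pos hW0] at h1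
    exact le_of_mul_le_mul_right h1 hW0
  by_cases hv : |γ * (2 * ((l % r : ℕ) : ℝ) + 1) - D| ≤ δ₁
  · refine hG T (Or.inl fun c hc d hd hcd => ?_)
    by_contra hn
    have h1 := key c hc d hd hcd
    rw [if_neg hn, add_zero] at h1
    have h2 := (abs_le.1 h1).1
    have h3 := (abs_le.1 hv).2
    nlinarith
  · refine hG T (Or.inr fun c hc d hd hcd hn => hv ?_)
    have h1 := key c hc d hd hcd
    rwa [if_pos hn] at h1

theorem heaviest {G : SimpleGraph (Fin n)} [DecidableRel G.Adj] {r ω : ℕ}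
    {γ α δ₁ δ₂ D M : ℝ}
    {μ : (Fin K → Fin n) → ℝ} (hn : 2 ≤ n) (hG : Hom G ω) (hα : 0 < α) (h12 : δ₁ < δ₂)
    (hγ : 2 * δ₂ < γ) (h0 : ∀ a, 0 ≤ μ a) (hM0 : 0 < M)
    (H : ∀ X Y : Finset (Fin K → Fin n), α * M ≤ wt μ X → α * M ≤ wt μ Y →
      |E1 G r γ μ X Y - D * (wt μ X * wt μ Y)| ≤ δ₁ * (wt μ X * wt μ Y))
    (x : Fin K → Fin n) {l : ℕ} (hl : l < K) : ∃ c : Fin n,
      wt μ (Nd x l) ≤ n * wt μ ((Nd x l).filter fun a => a ⟨l, hl⟩ = c) ∧
      wt μ (Nd x l) ≤ ω * wt μ ((Nd x l).filter fun a => a ⟨l, hl⟩ = c) + n * (α * M) := by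
  classical
  have : Nonempty (Fin n) := ⟨⟨0, by omega⟩⟩
  obtain ⟨m, hm⟩ : ∃ m : Fin n → ℝ, m = fun c => wt μ ((Nd x l).filter fun a => a ⟨l, hl⟩ = c) :=
    ⟨_, rfl⟩
  have hm' : ∀ c, m c = wt μ ((Nd x l).filter fun a => a ⟨l, hl⟩ = c) := fun c => by rw [hm]
  have hm0 : ∀ c, 0 ≤ m c := fun c => by
    rw [hm']
    exact wt_nonneg h0 _
  have hsum : ∑ c, m c = wt μ (Nd x l) := by
    rw [hm]
    exact wt_fiber μ (Nd x l) ⟨l, hl⟩
  obtain ⟨c0, -, hc0⟩ := exists_max_image (univ : Finset (Fin n)) m univ_nonempty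
  refine ⟨c0, ?_, ?_⟩
  · rw [← hsum, ← hm']
    refine (sum_le_sum fun c _ => hc0 c (mem_univ c)).trans ?_
    rw [sum_const, card_univ, Fintype.card_fin, nsmul_eq_mul]
  · obtain ⟨T, hT⟩ : ∃ T : Finset (Fin n), T = univ.filter fun c => α * M ≤ m c := ⟨_, rfl⟩
    have hTc : T.card ≤ ω := by
      refine child_hom hG hα h12 hγ h0 hM0 H x hl T fun c hc => ?_
      rw [hT, mem_filter] at hc
      rw [← hm']
      exact hc.2
    have hA : 0 ≤ α * M := (mul_pos hα hM0).le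
    rw [← hsum, ← hm', ← sum_filter_add_sum_filter_not univ (fun c => α * M ≤ m c) m]
    refine add_le_add ?_ ?_
    · rw [← hT]
      refine (sum_le_sum fun c _ => hc0 c (mem_univ c)).trans ?_
      rw [sum_const, nsmul_eq_mul]
      exact mul_le_mul_of_nonneg_right (by exact_mod_cast hTc) (hm0 c0)
    · have h1 : ∀ c ∈ univ.filter (fun c => ¬ α * M ≤ m c), m c ≤ α * M := by
        intro c hc
        rw [mem_filter] at hc
        exact (not_le.1 hc.2).le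
      refine (sum_le_sum h1).trans ?_
      rw [sum_const, nsmul_eq_mul]
      refine mul_le_mul_of_nonneg_right ?_ hA
      have h2 : (univ.filter fun c => ¬ α * M ≤ m c).card ≤ n := by
        refine (card_le_univ _).trans ?_
        rw [Fintype.card_fin]
      exact_mod_cast h2

/-! ### the induction -/

theorem Ls_upd_sub {r : ℕ} {γ δ₂ D : ℝ} (x : Fin K → Fin n) {l : ℕ} (hl : l < K) (c : Fin n) :
    Ls r γ δ₂ D x l ⊆ Ls r γ δ₂ D (Function.update x ⟨l, hl⟩ c) (l + 1) := by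
  intro b hb
  rw [mem_Ls] at hb ⊢
  have h1 : lev b (Function.update x ⟨l, hl⟩ c) < l := by
    by_contra h
    push Not at h
    have := (upd_lev (a := b) (x := x) hl c le_rfl).1 h
    omega
  rw [upd_lev_eq hl c h1]
  exact ⟨by omega, hb.2⟩

theorem Ls_upd_not {r : ℕ} {γ δ₂ D : ℝ} {μ : (Fin K → Fin n) → ℝ} (h0 : ∀ a, 0 ≤ μ a)
    (x : Fin K → Fin n) {l : ℕ} (hl : l < K) (c : Fin n) (hw : ¬ Win r γ δ₂ D l) :
    wt μ (Nd x l) + wt μ (Ls r γ δ₂ D x l) ≤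
      wt μ ((Nd x l).filter fun a => a ⟨l, hl⟩ = c) +
        wt μ (Ls r γ δ₂ D (Function.update x ⟨l, hl⟩ c) (l + 1)) := by
  classical
  have h1 : Ls r γ δ₂ D x l ∪ ((Nd x l).filter fun a => ¬ a ⟨l, hl⟩ = c) ⊆
      Ls r γ δ₂ D (Function.update x ⟨l, hl⟩ c) (l + 1) := by
    intro b hb
    rw [mem_union] at hb
    rcases hb with hb | hb
    · exact Ls_upd_sub x hl c hb
    · rw [mem_filter, mem_Nd] at hb
      have h2 : l ≤ lev b (Function.update x ⟨l, hl⟩ c) :=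
        (upd_lev (a := b) (x := x) hl c le_rfl).2 hb.1
      have h3 : ¬ l + 1 ≤ lev b (Function.update x ⟨l, hl⟩ c) := fun h =>
        hb.2 ((upd_succ hl c).1 h).2
      have h4 : lev b (Function.update x ⟨l, hl⟩ c) = l := by omega
      rw [mem_Ls, h4]
      exact ⟨by omega, hw⟩
  have h2 : Disjoint (Ls r γ δ₂ D x l) ((Nd x l).filter fun a => ¬ a ⟨l, hl⟩ = c) := by
    rw [disjoint_left]
    intro b hb hb'
    rw [mem_Ls] at hb
    rw [mem_filter, mem_Nd] at hb'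
    omega
  have h3 := wt_mono h0 h1
  have h4 : wt μ (Ls r γ δ₂ D x l ∪ ((Nd x l).filter fun a => ¬ a ⟨l, hl⟩ = c)) =
      wt μ (Ls r γ δ₂ D x l) + wt μ ((Nd x l).filter fun a => ¬ a ⟨l, hl⟩ = c) := by
    unfold wt
    exact sum_union h2
  have h5 : wt μ (Nd x l) = wt μ ((Nd x l).filter fun a => a ⟨l, hl⟩ = c) +
      wt μ ((Nd x l).filter fun a => ¬ a ⟨l, hl⟩ = c) := by
    unfold wt
    exact (sum_filter_add_sum_filter_not _ _ _).symm
  linarith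

theorem ker_step {G : SimpleGraph (Fin n)} [DecidableRel G.Adj] {r q ω : ℕ}
    {γ α δ₁ δ₂ D M : ℝ} {μ : (Fin K → Fin n) → ℝ} (hK : K = r * q) (hr : 1 ≤ r) (hn : 2 ≤ n)
    (hω : 2 ≤ ω) (hG : Hom G ω) (hα : 0 < α) (h12 : δ₁ < δ₂) (hγ0 : 0 ≤ γ) (hγ : 2 * δ₂ < γ)
    (h0 : ∀ a, 0 ≤ μ a) (hM0 : 0 < M) (hc : 4 * n * α * (ω : ℝ) ^ q ≤ 1)
    (H : ∀ X Y : Finset (Fin K → Fin n), α * M ≤ wt μ X → α * M ≤ wt μ Y →
      |E1 G r γ μ X Y - D * (wt μ X * wt μ Y)| ≤ δ₁ * (wt μ X * wt μ Y))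
    (x : Fin K → Fin n) {l : ℕ} (hl : l < K) (h1 : α * M ≤ wt μ (Nd x l))
    (h2 : M ≤ (ω : ℝ) ^ wn r γ δ₂ D l *
      (wt μ (Nd x l) + wt μ (Ls r γ δ₂ D x l) + n * (α * M))) :
    ∃ y : Fin K → Fin n, α * M ≤ wt μ (Nd y (l + 1)) ∧
      M ≤ (ω : ℝ) ^ wn r γ δ₂ D (l + 1) *
        (wt μ (Nd y (l + 1)) + wt μ (Ls r γ δ₂ D y (l + 1)) + n * (α * M)) := by
  have hA : 0 < α * M := mul_pos hα hM0
  have hn' : (2 : ℝ) ≤ n := by exact_mod_cast hn
  have hω' : (2 : ℝ) ≤ ω := by exact_mod_cast hω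
  have hL := loss hγ0 hα h12 h0 hM0 H x hl.le h1
  have hL0 := wt_nonneg h0 (Ls r γ δ₂ D x l)
  have hw0 := wt_nonneg h0 (Nd x l)
  have hwn : wn r γ δ₂ D l ≤ q := wn_le hr hγ0 hγ (by omega)
  -- the node is heavy
  have hbig : 2 * n * (α * M) ≤ wt μ (Nd x l) := by
    have e1 : (ω : ℝ) ^ wn r γ δ₂ D l ≤ (ω : ℝ) ^ q :=
      pow_le_pow_right₀ (by linarith) hwn
    have e2 : M ≤ (ω : ℝ) ^ q * (wt μ (Nd x l) + wt μ (Ls r γ δ₂ D x l) + n * (α * M)) :=
      h2.trans (mul_le_mul_of_nonneg_right e1 (by positivity))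
    have e3 : (ω : ℝ) ^ q * (4 * n * (α * M)) ≤ M := by
      have := mul_le_mul_of_nonneg_right hc hM0.le
      linarith
    have e4 : 4 * n * (α * M) ≤ wt μ (Nd x l) + wt μ (Ls r γ δ₂ D x l) + n * (α * M) :=
      le_of_mul_le_mul_left (e3.trans e2) (by positivity)
    nlinarith
  obtain ⟨c, hc1, hc2⟩ := heaviest hn hG hα h12 hγ h0 hM0 H x hl
  obtain ⟨w, hw⟩ : ∃ w : ℝ, w = wt μ ((Nd x l).filter fun a => a ⟨l, hl⟩ = c) := ⟨_, rfl⟩
  have hwx : wt μ (Nd (Function.update x ⟨l, hl⟩ c) (l + 1)) = w := by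
    rw [Nd_upd, hw]
  rw [← hw] at hc1 hc2
  have hw2 : α * M ≤ w := by
    have e1 : n * (2 * (α * M)) ≤ n * w := by linarith
    have e2 := le_of_mul_le_mul_left e1 (by linarith : (0 : ℝ) < n)
    linarith
  refine ⟨Function.update x ⟨l, hl⟩ c, by rw [hwx]; exact hw2, ?_⟩
  rw [hwx]
  have hL1 := wt_nonneg h0 (Ls r γ δ₂ D (Function.update x ⟨l, hl⟩ c) (l + 1))
  by_cases hwin : Win r γ δ₂ D l
  · rw [wn_succ_win hwin, pow_succ, mul_assoc]
    refine h2.trans (mul_le_mul_of_nonneg_left ?_ (by positivity))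
    have e1 := wt_mono h0 (Ls_upd_sub (r := r) (γ := γ) (δ₂ := δ₂) (D := D) x hl c)
    have e2 : 0 ≤ n * (α * M) := by positivity
    nlinarith [mul_le_mul_of_nonneg_right hω' hL1, mul_le_mul_of_nonneg_right hω' e2]
  · rw [wn_succ_not hwin]
    refine h2.trans (mul_le_mul_of_nonneg_left ?_ (by positivity))
    have e1 := Ls_upd_not (r := r) (γ := γ) (δ₂ := δ₂) (D := D) h0 x hl c hwin
    rw [← hw] at e1
    linarith

theorem ker2 {G : SimpleGraph (Fin n)} [DecidableRel G.Adj] {r q ω : ℕ} {γ α δ₁ δ₂ D M h : ℝ}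
    {μ : (Fin K → Fin n) → ℝ} (hK : K = r * q) (hr : 1 ≤ r) (hn : 2 ≤ n) (hω : 2 ≤ ω)
    (hG : Hom G ω) (hα : 0 < α) (h12 : δ₁ < δ₂) (hγ : 2 * δ₂ < γ)
    (h0 : ∀ a, 0 ≤ μ a) (hμ : ∀ a, μ a ≤ h) (hM : M = wt μ univ) (hM0 : 0 < M)
    (hc : 4 * n * α * (ω : ℝ) ^ q ≤ 1)
    (H : ∀ X Y : Finset (Fin K → Fin n), α * M ≤ wt μ X → α * M ≤ wt μ Y →
      |E1 G r γ μ X Y - D * (wt μ X * wt μ Y)| ≤ δ₁ * (wt μ X * wt μ Y)) :
    M ≤ 2 * (ω : ℝ) ^ q * h := by
  have hA : 0 < α * M := mul_pos hα hM0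
  have hn' : (2 : ℝ) ≤ n := by exact_mod_cast hn
  have hω' : (2 : ℝ) ≤ ω := by exact_mod_cast hω
  have hωq : (1 : ℝ) ≤ (ω : ℝ) ^ q := one_le_pow₀ (by linarith)
  have hα1 : α * M ≤ M := by
    have e1 : α * 1 ≤ α * (4 * n * (ω : ℝ) ^ q) :=
      mul_le_mul_of_nonneg_left (by nlinarith) hα.le
    have e2 : α ≤ 1 := by linarith
    nlinarith
  have hδ : 0 ≤ δ₁ := by
    have e1 := H univ univ (by rw [← hM]; exact hα1) (by rw [← hM]; exact hα1)
    have e2 := (abs_nonneg _).trans e1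
    rw [← hM] at e2
    by_contra h'
    push Not at h'
    have := mul_neg_of_neg_of_pos h' (mul_pos hM0 hM0)
    linarith
  have hγ0 : 0 ≤ γ := by linarith
  have key : ∀ l, l ≤ K → ∃ x : Fin K → Fin n, α * M ≤ wt μ (Nd x l) ∧
      M ≤ (ω : ℝ) ^ wn r γ δ₂ D l *
        (wt μ (Nd x l) + wt μ (Ls r γ δ₂ D x l) + n * (α * M)) := by
    intro l
    induction l with
    | zero =>
      intro _
      have e0 : Nd (fun _ => (⟨0, by omega⟩ : Fin n)) 0 = (univ : Finset (Fin K → Fin n)) := by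
        ext a
        simp [Nd]
      refine ⟨fun _ => ⟨0, by omega⟩, by rw [e0, ← hM]; exact hα1, ?_⟩
      rw [e0, ← hM, wn_zero, pow_zero, one_mul]
      have e1 := wt_nonneg h0 (Ls r γ δ₂ D (fun _ => (⟨0, by omega⟩ : Fin n)) 0 :
        Finset (Fin K → Fin n))
      have e2 : 0 ≤ n * (α * M) := by positivity
      linarith
    | succ l ih =>
      intro hl
      obtain ⟨x, hx1, hx2⟩ := ih (by omega)
      exact ker_step hK hr hn hω hG hα h12 hγ0 hγ h0 hM0 hc H x (by omega) hx1 hx2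
  obtain ⟨x, hx1, hx2⟩ := key K le_rfl
  have hL := loss hγ0 hα h12 h0 hM0 H x le_rfl hx1
  have hNd : Nd x K = {x} := by
    ext a
    rw [mem_Nd, mem_singleton]
    constructor
    · intro ha
      exact funext fun j => (ag_iff le_rfl).2 ha j j.2
    · rintro rfl
      exact (lev_self _).ge
  have hw : wt μ (Nd x K) ≤ h := by
    rw [hNd]
    unfold wt
    rw [sum_singleton]
    exact hμ x
  have hL0 := wt_nonneg h0 (Ls r γ δ₂ D x K)
  have hw0 := wt_nonneg h0 (Nd x K)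
  have hwn : wn r γ δ₂ D K ≤ q := wn_le hr hγ0 hγ hK.le
  have e1 : (ω : ℝ) ^ wn r γ δ₂ D K ≤ (ω : ℝ) ^ q := pow_le_pow_right₀ (by linarith) hwn
  have e2 : M ≤ (ω : ℝ) ^ q * (wt μ (Nd x K) + wt μ (Ls r γ δ₂ D x K) + n * (α * M)) :=
    hx2.trans (mul_le_mul_of_nonneg_right e1 (by positivity))
  have e3 : (ω : ℝ) ^ q * (4 * n * (α * M)) ≤ M := by
    have := mul_le_mul_of_nonneg_right hc hM0.le
    linarith
  have e4 : (ω : ℝ) ^ q * (wt μ (Nd x K) + wt μ (Ls r γ δ₂ D x K) + n * (α * M)) ≤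
      (ω : ℝ) ^ q * (h + 2 * n * (α * M)) := by
    refine mul_le_mul_of_nonneg_left ?_ (by positivity)
    nlinarith
  have e5 : (ω : ℝ) ^ q * (h + 2 * n * (α * M)) =
      (ω : ℝ) ^ q * h + 1 / 2 * ((ω : ℝ) ^ q * (4 * n * (α * M))) := by ring
  linarith

end Pool.Agent.RTU
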